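import Pool.Agent.Y990.PL.Stm
import Pool.Agent.W376.PC.SimonS
import Pool.Agent.W45.PC.PT1
import Pool.Agent.W333.PC.Harris

set_option autoImplicit false

open MeasureTheory Set

/-!
Job 374 (project PL of helper990): the mean cluster size is at most `M / (1 - ρ)` if around every
vertex there is a finite set of size at most `M` out of which the expected number of open
bonds endpoints is at most `ρ < 1`.
-/

namespace Pool.Agent.Y122.PL

open Pool.Agent.W783.PC Pool.Agent.W424.PC Pool.Agent.Y990.PL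
open Pool.Agent.W376.PC.SimonS
open Pool.Agent.W402.PC (pm_coord bern_true reach_iff reach_mono reach_mem last_exit dep_meas)

noncomputable section

/-- Some open bond leads from `C` to `z`. -/
def OB {n : ℕ} (E : Set (Sym2 (V n))) (z : V n) (C : Set (V n)) : Set (Cfg n) :=
  {ω | ∃ y ∈ C, s(y, z) ∈ E ∧ ω (Sum.inr s(y, z)) = true}

/-- The bonds between `C` and `z`. -/
def OD {n : ℕ} (z : V n) (C : Set (V n)) : Set (Ix n) := {c | ∃ y ∈ C, c = Sum.inr s(y, z)}

lemma OB_dep {n : ℕ} (E : Set (Sym2 (V n))) (z : V n) (C : Set (V n)) :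
    DepOn (OB E z C) (OD z C) := by
  intro ω ω' h
  constructor
  · rintro ⟨y, hy, hE, ho⟩
    exact ⟨y, hy, hE, by rw [← h _ ⟨y, hy, rfl⟩]; exact ho⟩
  · rintro ⟨y, hy, hE, ho⟩
    exact ⟨y, hy, hE, by rw [h _ ⟨y, hy, rfl⟩]; exact ho⟩

lemma OD_fin {n : ℕ} (z : V n) (C : Set (V n)) (hC : C.Finite) : (OD z C).Finite := by
  apply (hC.image (fun y => (Sum.inr s(y, z) : Ix n))).subset
  rintro c ⟨y, hy, rfl⟩
  exact ⟨y, hy, rfl⟩

lemma Adj1_mem_iff {n : ℕ} {E : Set (Sym2 (V n))} {S : Set (V n)} {x y : V n} {ω : Cfg n} :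
    ω ∈ Adj1 E S x y ↔ ω (Sum.inl x) = true ∧ ∃ x' ∈ S, (G E ω S).Reachable x x' ∧
      s(x', y) ∈ E ∧ ω (Sum.inr s(x', y)) = true := Iff.rfl

open scoped Classical in
/-- The one-step inequality. -/
lemma step {n : ℕ} (h1 : S_indep) (h2 : S_depmeas) (hH : S_harris) (r : Ix n → unitInterval)
    (E : Set (Sym2 (V n))) (T R : Finset (V n)) (x w : V n) (hx : x ∈ T) :
    Q r E R x w ≤ Q r E T x w + ∑ z ∈ R \ T,
      (pm r).real (Adj1 E (T : Set (V n)) x z) * Q r E R z w := by
  set CEv : V n → Finset (V n) → Set (Cfg n) := fun z C =>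
    A1 E x (C : Set (V n)) ∩ (A2 E (T : Set (V n)) (C : Set (V n)) ∩ OB E z (C : Set (V n)))
    with hCEv
  set B : V n → Finset (V n) → Set (Cfg n) := fun z C =>
    A1 E x (C : Set (V n)) ∩ (OB E z (C : Set (V n)) ∩
      (A2 E (T : Set (V n)) (C : Set (V n)) ∩ QE E ((R : Set (V n)) \ C) z w)) with hB
  have hsub : QE E (R : Set (V n)) x w ⊆ QE E (T : Set (V n)) x w ∪
        ⋃ z ∈ R \ T, ⋃ C ∈ T.powerset.filter (fun C => x ∈ C), B z C := by
    intro ω hω
    obtain ⟨hxo, hω⟩ := hω
    by_cases hw : (G E ω (T : Set (V n))).Reachable x w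
    · exact Or.inl ⟨hxo, hw⟩
    · right
      obtain ⟨y, z, hy, hz, hyz, hr⟩ := last_exit hω hw
      have hyT : y ∈ T := by
        rcases reach_mem hy with rfl | h
        · exact hx
        · exact_mod_cast h.2
      have hzT : z ∉ T := by
        intro hzT
        apply hz
        exact hy.trans (SimpleGraph.Adj.reachable
          ⟨hyz.1, by exact_mod_cast hyT, by exact_mod_cast hzT, hyz.2.2.2⟩)
      have hzR : z ∈ R := by exact_mod_cast hyz.2.2.1
      have hsubT : {v | (G E ω (T : Set (V n))).Reachable x v} ⊆ (T : Set (V n)) := by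
        intro v hv
        rcases reach_mem hv with rfl | h
        · exact_mod_cast hx
        · exact h.2
      have hfin : {v | (G E ω (T : Set (V n))).Reachable x v}.Finite :=
        T.finite_toSet.subset hsubT
      have hcl := (cluster_iff (E := E) (T := (T : Set (V n)))
        (C := {v | (G E ω (T : Set (V n))).Reachable x v}) (x := x)
        (SimpleGraph.Reachable.refl _) hsubT ω).1 ⟨hxo, rfl⟩
      simp only [mem_iUnion]
      refine ⟨z, by simp [hzR, hzT], hfin.toFinset, ?_, ?_⟩
      · simp only [Finset.mem_filter, Finset.mem_powerset]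
        refine ⟨?_, ?_⟩
        · intro v hv
          rw [Set.Finite.mem_toFinset] at hv
          exact_mod_cast hsubT hv
        · rw [Set.Finite.mem_toFinset]
          exact SimpleGraph.Reachable.refl _
      · simp only [hB, Set.Finite.coe_toFinset]
        exact ⟨hcl.1, ⟨y, hy, hyz.2.2.2.1, hyz.2.2.2.2.2.2⟩, hcl.2, hyz.2.2.2.2.2.1, hr⟩
  have hA1m : ∀ C : Finset (V n), x ∈ C → MeasurableSet (A1 E x (C : Set (V n))) := fun C hC =>
    dep_meas h2 (In_fin _ C.finite_toSet) (A1_dep E x C (by exact_mod_cast hC))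
  have hA2m : ∀ C : Finset (V n), MeasurableSet (A2 E (T : Set (V n)) (C : Set (V n))) := fun C =>
    dep_meas h2 (Btw_fin _ _ C.finite_toSet (T.finite_toSet.subset sdiff_subset))
      (A2_dep E (T : Set (V n)) (C : Set (V n)))
  have hOm : ∀ z, ∀ C : Finset (V n), MeasurableSet (OB E z (C : Set (V n))) := fun z C =>
    dep_meas h2 (OD_fin z _ C.finite_toSet) (OB_dep E z C)
  have hd12 : ∀ C : Finset (V n), Disjoint (In (C : Set (V n)))
      (Btw (C : Set (V n)) ((T : Set (V n)) \ C)) := by
    intro C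
    rw [Set.disjoint_left]
    rintro c (⟨v, hv, rfl⟩ | ⟨a, ha, b, hb, rfl⟩) (⟨v', hv', h⟩ | ⟨a', ha', b', hb', h⟩)
    · rw [Sum.inl_injective h] at hv
      exact hv'.2 hv
    · simp at h
    · simp at h
    · have h3 : s(a, b) = s(a', b') := Sum.inr_injective h
      have hz' : b' ∈ s(a, b) := by
        rw [h3]
        exact Sym2.mem_mk_right _ _
      rw [Sym2.mem_iff] at hz'
      rcases hz' with rfl | rfl
      · exact hb'.2 ha
      · exact hb'.2 hb
  -- the bonds from `C` to `z ∉ T` are neither inside `C` nor between `C` and `T \ C`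
  have hd1O : ∀ z, ∀ C : Finset (V n), z ∉ C → Disjoint (In (C : Set (V n))) (OD z C) := by
    intro z C hzC
    rw [Set.disjoint_left]
    rintro c hc ⟨y, hy, rfl⟩
    exact hzC (by exact_mod_cast (mem_In_inr hc).2)
  have hd2O : ∀ z, ∀ C : Finset (V n), z ∉ C → z ∉ T →
      Disjoint (Btw (C : Set (V n)) ((T : Set (V n)) \ C)) (OD z C) := by
    intro z C hzC hzT
    rw [Set.disjoint_left]
    rintro c hc ⟨y, hy, rfl⟩
    rcases mem_Btw_inr hc with ⟨_, h4⟩ | ⟨h4, _⟩
    · exact hzT (by exact_mod_cast h4.1)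
    · exact hzC (by exact_mod_cast h4)
  have hCE : ∀ z ∈ R \ T, ∀ C ∈ T.powerset.filter (fun C => x ∈ C), (pm r).real (CEv z C) =
      (pm r).real (A1 E x (C : Set (V n))) *
        ((pm r).real (A2 E (T : Set (V n)) (C : Set (V n))) *
          (pm r).real (OB E z (C : Set (V n)))) := by
    intro z hz C hC
    simp only [Finset.mem_filter, Finset.mem_powerset] at hC
    obtain ⟨hCT, hxC⟩ := hC
    simp only [Finset.mem_sdiff] at hz
    have hzC : z ∉ C := fun h => hz.2 (hCT h)
    have hd1 := A1_dep E x (C : Set (V n)) (by exact_mod_cast hxC)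
    have hd2 := A2_dep E (T : Set (V n)) (C : Set (V n))
    have hdO := OB_dep E z (C : Set (V n))
    have hd2O' : DepOn (A2 E (T : Set (V n)) (C : Set (V n)) ∩ OB E z (C : Set (V n)))
        (Btw (C : Set (V n)) ((T : Set (V n)) \ C) ∪ OD z (C : Set (V n))) := by
      intro ω ω' h
      exact and_congr (hd2 ω ω' (fun c hc => h c (Or.inl hc)))
        (hdO ω ω' (fun c hc => h c (Or.inr hc)))
    have e1 : pm r (CEv z C) = pm r (A1 E x (C : Set (V n))) *
        pm r (A2 E (T : Set (V n)) (C : Set (V n)) ∩ OB E z (C : Set (V n))) :=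
      h1 _ r _ _ _ _ hd1 hd2O' (Set.disjoint_union_right.2 ⟨hd12 C, hd1O z C hzC⟩)
        (hA1m C hxC) ((hA2m C).inter (hOm z C))
    have e2 : pm r (A2 E (T : Set (V n)) (C : Set (V n)) ∩ OB E z (C : Set (V n))) =
        pm r (A2 E (T : Set (V n)) (C : Set (V n))) * pm r (OB E z (C : Set (V n))) :=
      h1 _ r _ _ _ _ hd2 hdO (hd2O z C hzC hz.2) (hA2m C) (hOm z C)
    rw [Measure.real, e1, e2, ENNReal.toReal_mul, ENNReal.toReal_mul]
    rfl
  have hBval : ∀ z ∈ R \ T, ∀ C ∈ T.powerset.filter (fun C => x ∈ C),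
      (pm r).real (B z C) ≤ (pm r).real (CEv z C) * Q r E R z w := by
    intro z hz C hC
    rw [hCE z hz C hC]
    simp only [Finset.mem_filter, Finset.mem_powerset] at hC
    obtain ⟨hCT, hxC⟩ := hC
    simp only [Finset.mem_sdiff] at hz
    have hzC : z ∉ C := fun h => hz.2 (hCT h)
    have hzRC : z ∈ (R : Set (V n)) \ C := ⟨by exact_mod_cast hz.1, by exact_mod_cast hzC⟩
    have hd1 := A1_dep E x (C : Set (V n)) (by exact_mod_cast hxC)
    have hd2 := A2_dep E (T : Set (V n)) (C : Set (V n))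
    have hd3 := QE_dep E ((R : Set (V n)) \ C) z w hzRC
    have hdO := OB_dep E z (C : Set (V n))
    have hfD2 : (Btw (C : Set (V n)) ((T : Set (V n)) \ C)).Finite :=
      Btw_fin _ _ C.finite_toSet (T.finite_toSet.subset sdiff_subset)
    have hfD3 : (In ((R : Set (V n)) \ C)).Finite := In_fin _ (R.finite_toSet.subset sdiff_subset)
    have hQm := dep_meas h2 hfD3 hd3
    have hd23 : DepOn (A2 E (T : Set (V n)) (C : Set (V n)) ∩ QE E ((R : Set (V n)) \ C) z w)
        (Btw (C : Set (V n)) ((T : Set (V n)) \ C) ∪ In ((R : Set (V n)) \ C)) := by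
      intro ω ω' h
      exact and_congr (hd2 ω ω' (fun c hc => h c (Or.inl hc)))
        (hd3 ω ω' (fun c hc => h c (Or.inr hc)))
    have hdO23 : DepOn (OB E z (C : Set (V n)) ∩
        (A2 E (T : Set (V n)) (C : Set (V n)) ∩ QE E ((R : Set (V n)) \ C) z w))
        (OD z (C : Set (V n)) ∪
          (Btw (C : Set (V n)) ((T : Set (V n)) \ C) ∪ In ((R : Set (V n)) \ C))) := by
      intro ω ω' h
      exact and_congr (hdO ω ω' (fun c hc => h c (Or.inl hc)))
        (hd23 ω ω' (fun c hc => h c (Or.inr hc)))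
    have e2 : pm r (OB E z (C : Set (V n)) ∩
        (A2 E (T : Set (V n)) (C : Set (V n)) ∩ QE E ((R : Set (V n)) \ C) z w)) =
        pm r (OB E z (C : Set (V n))) *
          pm r (A2 E (T : Set (V n)) (C : Set (V n)) ∩ QE E ((R : Set (V n)) \ C) z w) := by
      refine h1 _ r _ _ _ _ hdO hd23 ?_ (hOm z C) ((hA2m C).inter hQm)
      refine Set.disjoint_union_right.2 ⟨(hd2O z C hzC hz.2).symm, ?_⟩
      rw [Set.disjoint_left]
      rintro c ⟨y, hy, rfl⟩ h
      exact (mem_In_inr h).1.2 hy
    have e1 : pm r (B z C) = pm r (A1 E x (C : Set (V n))) *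
        pm r (OB E z (C : Set (V n)) ∩
        (A2 E (T : Set (V n)) (C : Set (V n)) ∩ QE E ((R : Set (V n)) \ C) z w)) := by
      refine h1 _ r _ _ _ _ hd1 hdO23 ?_ (hA1m C hxC) ((hOm z C).inter ((hA2m C).inter hQm))
      refine Set.disjoint_union_right.2 ⟨hd1O z C hzC, Set.disjoint_union_right.2 ⟨hd12 C, ?_⟩⟩
      rw [Set.disjoint_left]
      rintro c (⟨v, hv, rfl⟩ | ⟨a, ha, b, hb, rfl⟩) h
      · exact (mem_In_inl h).2 hv
      · exact (mem_In_inr h).1.2 ha
    have e4 : (pm r).real (A2 E (T : Set (V n)) (C : Set (V n)) ∩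
        QE E ((R : Set (V n)) \ C) z w) ≤ (pm r).real (A2 E (T : Set (V n)) (C : Set (V n))) *
          Q r E ((R : Set (V n)) \ C) z w := by
      refine neg_corr hH h2 r hfD2 hfD3 hd2 hd3 ?_ (QE_inc _ _ _ _)
      intro ω ω' h hω hω'
      apply hω
      intro v hv y' hy' hE' hvy
      exact hω' v hv y' hy' hE' ⟨h _ hvy.1, h _ hvy.2⟩
    have e3 : (pm r).real (B z C) = (pm r).real (A1 E x (C : Set (V n))) *
        ((pm r).real (OB E z (C : Set (V n))) *
          (pm r).real (A2 E (T : Set (V n)) (C : Set (V n)) ∩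
            QE E ((R : Set (V n)) \ C) z w)) := by
      rw [Measure.real, e1, e2, ENNReal.toReal_mul, ENNReal.toReal_mul]
      rfl
    rw [e3]
    have e5 := Q_mono r E (R := (R : Set (V n)) \ C) (R' := R) sdiff_subset z w
    have h0 : 0 ≤ (pm r).real (OB E z (C : Set (V n))) := measureReal_nonneg
    have h00 : 0 ≤ (pm r).real (A1 E x (C : Set (V n))) := measureReal_nonneg
    have h01 : 0 ≤ (pm r).real (A2 E (T : Set (V n)) (C : Set (V n))) := measureReal_nonneg
    calc (pm r).real (A1 E x (C : Set (V n))) *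
        ((pm r).real (OB E z (C : Set (V n))) *
          (pm r).real (A2 E (T : Set (V n)) (C : Set (V n)) ∩
            QE E ((R : Set (V n)) \ C) z w))
        ≤ (pm r).real (A1 E x (C : Set (V n))) * ((pm r).real (OB E z (C : Set (V n))) *
          ((pm r).real (A2 E (T : Set (V n)) (C : Set (V n))) * Q r E R z w)) := by
          refine mul_le_mul_of_nonneg_left (mul_le_mul_of_nonneg_left ?_ h0) h00
          exact e4.trans (mul_le_mul_of_nonneg_left e5 h01)
      _ = _ := by ring
  have hsum : ∀ z ∈ R \ T, ∑ C ∈ T.powerset.filter (fun C => x ∈ C),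
      (pm r).real (CEv z C) ≤ (pm r).real (Adj1 E (T : Set (V n)) x z) := by
    intro z hz
    have hmem : ∀ C ∈ T.powerset.filter (fun C => x ∈ C), ∀ ω ∈ CEv z C,
        ω (Sum.inl x) = true ∧ {v | (G E ω (T : Set (V n))).Reachable x v} = (C : Set (V n)) := by
      intro C hC ω hω
      simp only [Finset.mem_filter, Finset.mem_powerset] at hC
      exact (cluster_iff (by exact_mod_cast hC.2) (by exact_mod_cast hC.1) ω).2
        ⟨hω.1, hω.2.1⟩
    rw [← measureReal_biUnion_finset]
    · apply measureReal_mono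
      · intro ω hω
        simp only [mem_iUnion] at hω
        obtain ⟨C, hC, hω⟩ := hω
        have h3 := hmem C hC ω hω
        simp only [Finset.mem_filter, Finset.mem_powerset] at hC
        obtain ⟨y, hy, hE, ho⟩ := hω.2.2
        have hy' := hy
        rw [← h3.2] at hy'
        exact ⟨h3.1, y, by exact_mod_cast hC.1 (by exact_mod_cast hy), hy', hE, ho⟩
      · exact measure_ne_top _ _
    · intro C hC C' hC' hne
      rw [Function.onFun, Set.disjoint_left]
      intro ω h3 h4
      apply hne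
      have h5 : (C : Set (V n)) = C' := (hmem C hC ω h3).2.symm.trans (hmem C' hC' ω h4).2
      exact_mod_cast h5
    · intro C hC
      simp only [Finset.mem_filter, Finset.mem_powerset] at hC
      exact (hA1m C hC.2).inter ((hA2m C).inter (hOm z C))
  calc Q r E R x w ≤ (pm r).real (QE E (T : Set (V n)) x w ∪
        ⋃ z ∈ R \ T, ⋃ C ∈ T.powerset.filter (fun C => x ∈ C), B z C) :=
        measureReal_mono hsub
    _ ≤ Q r E T x w + (pm r).real (⋃ z ∈ R \ T,
          ⋃ C ∈ T.powerset.filter (fun C => x ∈ C), B z C) := measureReal_union_le _ _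
    _ ≤ Q r E T x w + ∑ z ∈ R \ T,
          ∑ C ∈ T.powerset.filter (fun C => x ∈ C), (pm r).real (B z C) := by
        gcongr
        refine (measureReal_biUnion_finset_le _ _).trans ?_
        apply Finset.sum_le_sum
        intro z _
        exact measureReal_biUnion_finset_le _ _
    _ ≤ Q r E T x w + ∑ z ∈ R \ T,
          (pm r).real (Adj1 E (T : Set (V n)) x z) * Q r E R z w := by
        gcongr with z hz
        refine (Finset.sum_le_sum (hBval z hz)).trans ?_
        rw [← Finset.sum_mul]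
        exact mul_le_mul_of_nonneg_right (hsum z hz) (Q_nonneg r E R z w)

theorem susc : S_susc := by
  classical
  intro n r E S M ρ hρ0 hρ hS hphi R x hx
  have h1 : S_indep := Pool.Agent.W45.PC.s_indep
  have h2 : S_depmeas := Pool.Agent.W45.PC.s_depmeas
  have hH : S_harris := Pool.Agent.W333.PC.s_harris
  set X : V n → ℝ := fun x => ∑ w ∈ R, Q r E (R : Set (V n)) x w with hX
  have hX0 : ∀ z, 0 ≤ X z := fun z => Finset.sum_nonneg (fun w _ => Q_nonneg _ _ _ _ _)
  set K : ℝ := R.sup' ⟨x, hx⟩ X with hK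
  have hXK : ∀ z ∈ R, X z ≤ K := fun z hz => Finset.le_sup' X hz
  have hK0 : 0 ≤ K := (hX0 x).trans (hXK x hx)
  have hstep : ∀ z ∈ R, X z ≤ M + ρ * K := by
    intro z hz
    set T : Finset (V n) := S z with hT
    have hzT : z ∈ T := (hS z).1
    have e1 : X z ≤ ∑ w ∈ R, (Q r E T z w + ∑ v ∈ R \ T,
        (pm r).real (Adj1 E (T : Set (V n)) z v) * Q r E R v w) :=
      Finset.sum_le_sum (fun w _ => step h1 h2 hH r E T R z w hzT)
    have e2 : ∑ w ∈ R, Q r E T z w ≤ M := by
      calc ∑ w ∈ R, Q r E T z w ≤ ∑ w ∈ R, if w ∈ T then (1 : ℝ) else 0 := by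
            apply Finset.sum_le_sum
            intro w _
            split_ifs with hw
            · exact Q_le_one _ _ _ _ _
            · rw [Q_zero r E (by exact_mod_cast hzT) (by exact_mod_cast hw)]
        _ = ((R.filter (fun w => w ∈ T)).card : ℝ) := by
            rw [Finset.sum_ite, Finset.sum_const, Finset.sum_const_zero, add_zero, nsmul_eq_mul,
              mul_one]
        _ ≤ T.card := by
            have : R.filter (fun w => w ∈ T) ⊆ T := by
              intro w hw
              exact (Finset.mem_filter.1 hw).2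
            exact_mod_cast Finset.card_le_card this
        _ ≤ M := by exact_mod_cast (hS z).2
    have e3 : ∑ w ∈ R, ∑ v ∈ R \ T,
        (pm r).real (Adj1 E (T : Set (V n)) z v) * Q r E R v w ≤ ρ * K := by
      calc ∑ w ∈ R, ∑ v ∈ R \ T, (pm r).real (Adj1 E (T : Set (V n)) z v) * Q r E R v w
          = ∑ v ∈ R \ T, (pm r).real (Adj1 E (T : Set (V n)) z v) * X v := by
            rw [Finset.sum_comm]
            apply Finset.sum_congr rfl
            intro v _
            rw [← Finset.mul_sum]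
        _ ≤ ∑ v ∈ R \ T, (pm r).real (Adj1 E (T : Set (V n)) z v) * K := by
            apply Finset.sum_le_sum
            intro v hv
            exact mul_le_mul_of_nonneg_left (hXK v (Finset.mem_sdiff.1 hv).1) measureReal_nonneg
        _ = (∑ v ∈ R \ T, (pm r).real (Adj1 E (T : Set (V n)) z v)) * K := by
            rw [Finset.sum_mul]
        _ ≤ ρ * K := mul_le_mul_of_nonneg_right (hphi z R) hK0
    rw [Finset.sum_add_distrib] at e1
    linarith
  have hKle : K ≤ M + ρ * K := Finset.sup'_le _ _ hstep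
  have h3 : K ≤ M / (1 - ρ) := by
    rw [le_div_iff₀ (by linarith)]
    linarith
  exact (hXK x hx).trans h3

end

end Pool.Agent.Y122.PL
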